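import Mathlib

open Complex Filter Metric Real Set Topology MeasureTheory
open scoped ENNReal

namespace Pool.Agent.Y264.CA

/-- truncated logarithmic potential -/
noncomputable def psi (L : ℝ) (x : ℂ) (ρ : ℝ) (z : ℂ) : ℝ := Real.log L - Real.log (max ‖z - x‖ ρ)

lemma max_pos' (x z : ℂ) {ρ : ℝ} (hρ : 0 < ρ) : 0 < max ‖z - x‖ ρ := lt_max_of_lt_right hρ

lemma continuous_logmax (x : ℂ) {ρ : ℝ} (hρ : 0 < ρ) :
    Continuous (fun z : ℂ => Real.log (max ‖z - x‖ ρ)) := by
  apply Continuous.log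
  · fun_prop
  · intro z
    exact (max_pos' x z hρ).ne'

lemma continuous_psi (L : ℝ) (x : ℂ) {ρ : ℝ} (hρ : 0 < ρ) : Continuous (psi L x ρ) :=
  continuous_const.sub (continuous_logmax x hρ)

lemma psi_nonneg (L : ℝ) (x : ℂ) {ρ : ℝ} (hρ : 0 < ρ) (z : ℂ) (h1 : ‖z - x‖ ≤ L) (h2 : ρ ≤ L) :
    0 ≤ psi L x ρ z := by
  unfold psi
  have := Real.log_le_log (max_pos' x z hρ) (max_le h1 h2)
  linarith

lemma logmax_le_circleAverage (x : ℂ) {ρ : ℝ} (hρ : 0 < ρ) (z : ℂ) {r : ℝ} (hr : 0 < r) :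
    Real.log (max ‖z - x‖ ρ) ≤ circleAverage (fun w : ℂ => Real.log (max ‖w - x‖ ρ)) z r := by
  have hci : CircleIntegrable (fun w : ℂ => Real.log (max ‖w - x‖ ρ)) z r :=
    (continuous_logmax x hρ).continuousOn.circleIntegrable hr.le
  have h1 : Real.log ρ ≤ circleAverage (fun w : ℂ => Real.log (max ‖w - x‖ ρ)) z r := by
    have := circleAverage_mono (c := z) (R := r) (f₁ := fun _ : ℂ => Real.log ρ)
      (f₂ := fun w : ℂ => Real.log (max ‖w - x‖ ρ)) (circleIntegrable_const _ _ _) hci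
      (fun w _ => Real.log_le_log hρ (le_max_right _ _))
    rwa [circleAverage_const] at this
  rcases le_total ‖z - x‖ ρ with h | h
  · rw [max_eq_right h]; exact h1
  · rw [max_eq_left h]
    have hpos : 0 < ‖z - x‖ := hρ.trans_le h
    set f' : ℂ → ℝ := fun w => if w = x then Real.log ρ else Real.log ‖w - x‖ with hf'
    have hcd : (fun w : ℂ => Real.log ‖w - x‖) =ᶠ[codiscreteWithin (sphere z |r|)] f' := by
      have : {w : ℂ | Real.log ‖w - x‖ = f' w} ∈ codiscreteWithin (sphere z |r|) := by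
        apply codiscreteWithin_iff_locallyFiniteComplementWithin.2
        intro w _
        refine ⟨Set.univ, univ_mem, ?_⟩
        apply (Set.finite_singleton x).subset
        intro y hy
        rw [Set.mem_singleton_iff]
        by_contra hne
        apply hy.2.2
        simp [hf', hne]
      exact this
    have h2 : circleAverage f' z r ≤
        circleAverage (fun w : ℂ => Real.log (max ‖w - x‖ ρ)) z r := by
      apply circleAverage_mono
        (CircleIntegrable.congr_codiscreteWithin hcd (circleIntegrable_log_norm_sub_const r)) hci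
      intro w _
      simp only [hf']
      split_ifs with hw
      · exact Real.log_le_log hρ (le_max_right _ _)
      · exact Real.log_le_log (norm_pos_iff.mpr (sub_ne_zero.mpr hw)) (le_max_left _ _)
    have h3 := circleAverage_log_norm_sub_const_eq_log_radius_add_posLog (a := x) (c := z) hr.ne'
    refine le_trans ?_ h2
    rw [← circleAverage_congr_codiscreteWithin hcd hr.ne']
    have h4 : circleAverage (fun w : ℂ => Real.log ‖w - x‖) z r =
      Real.log r + log⁺ (r⁻¹ * ‖z - x‖) := h3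
    rw [h4]
    have h5 : Real.log (r⁻¹ * ‖z - x‖) ≤ log⁺ (r⁻¹ * ‖z - x‖) := le_max_right _ _
    rw [Real.log_mul (inv_ne_zero hr.ne') hpos.ne', Real.log_inv] at h5
    linarith

lemma circleAverage_psi_le (L : ℝ) (x : ℂ) {ρ : ℝ} (hρ : 0 < ρ) (z : ℂ) {r : ℝ} (hr : 0 < r) :
    circleAverage (psi L x ρ) z r ≤ psi L x ρ z := by
  have h := logmax_le_circleAverage x hρ z hr
  have h2 : circleAverage (psi L x ρ) z r =
      Real.log L - circleAverage (fun w : ℂ => Real.log (max ‖w - x‖ ρ)) z r := by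
    unfold psi
    rw [circleAverage_fun_sub (circleIntegrable_const _ _ _)
      ((continuous_logmax x hρ).continuousOn.circleIntegrable hr.le), circleAverage_const]
  rw [h2]
  unfold psi
  linarith

lemma circleAverage_psi_gain (L : ℝ) (x : ℂ) {ρ : ℝ} (hρ : 0 < ρ) (z : ℂ) {r : ℝ}
    (hz : ‖z - x‖ ≤ ρ) (hr : 4 * ρ ≤ r) :
    circleAverage (psi L x ρ) z r ≤ psi L x ρ z - Real.log 3 := by
  have hr0 : 0 < r := by linarith
  apply circleAverage_mono_on_of_le_circle
  · exact (continuous_psi L x hρ).continuousOn.circleIntegrable hr0.le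
  · intro w hw
    rw [abs_of_pos hr0, mem_sphere, dist_eq_norm] at hw
    have h1 : 3 * ρ ≤ ‖w - x‖ := by
      have : ‖w - z‖ ≤ ‖w - x‖ + ‖z - x‖ := by
        calc ‖w - z‖ = ‖(w - x) - (z - x)‖ := by congr 1; ring
          _ ≤ _ := norm_sub_le _ _
      linarith
    unfold psi
    rw [max_eq_right hz]
    have h2 : Real.log (3 * ρ) ≤ Real.log (max ‖w - x‖ ρ) :=
      Real.log_le_log (by positivity) (h1.trans (le_max_left _ _))
    rw [Real.log_mul (by norm_num) hρ.ne'] at h2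
    linarith

/-- Efficient coverings of a set of finite length. -/
lemma cover (T : Set ℂ) (C : ℝ) (hC0 : 0 < C) (hC : μH[1] T < ENNReal.ofReal C) (δ : ℝ)
    (hδ : 0 < δ) : ∃ (x : ℕ → ℂ) (ρ : ℕ → ℝ), (∀ i, 0 < ρ i) ∧ (∀ i, ρ i ≤ δ) ∧
      ∑' i, ENNReal.ofReal (ρ i) ≤ ENNReal.ofReal (C + 1) ∧ ∀ z ∈ T, ∃ i, ‖z - x i‖ ≤ ρ i := by
  have hδ2 : (0 : ℝ≥0∞) < ENNReal.ofReal (δ / 2) := by
    rw [ENNReal.ofReal_pos]; positivity
  rw [Measure.hausdorffMeasure_apply] at hC
  have h1 := lt_of_le_of_lt (le_iSup₂ (f := fun (r : ℝ≥0∞) (_ : 0 < r) =>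
    ⨅ (t : ℕ → Set ℂ) (_ : T ⊆ ⋃ n, t n) (_ : ∀ n, Metric.ediam (t n) ≤ r),
      ∑' n, ⨆ _ : (t n).Nonempty, Metric.ediam (t n) ^ (1 : ℝ)) (ENNReal.ofReal (δ / 2)) hδ2) hC
  simp only [iInf_lt_iff] at h1
  obtain ⟨t, hTt, htd, hsum⟩ := h1
  set d : ℕ → ℝ≥0∞ := fun n => ⨆ _ : (t n).Nonempty, Metric.ediam (t n) ^ (1 : ℝ) with hd
  have hdle : ∀ n, d n ≤ ENNReal.ofReal (δ / 2) := by
    intro n
    simp only [hd]
    apply iSup_le
    intro _
    rw [ENNReal.rpow_one]
    exact htd n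
  have hdtop : ∀ n, d n ≠ ⊤ := fun n => ((hdle n).trans_lt ENNReal.ofReal_lt_top).ne
  set e : ℕ → ℝ := fun n => min (δ / 2) 1 * (1 / 2) ^ (n + 1) with he
  have hm : 0 < min (δ / 2) 1 := lt_min (by positivity) one_pos
  have hepos : ∀ n, 0 < e n := fun n => by simp only [he]; positivity
  have hele : ∀ n, e n ≤ (1 / 2) ^ (n + 1) := by
    intro n
    simp only [he]
    have : min (δ / 2) 1 ≤ 1 := min_le_right _ _
    have h2 : (0 : ℝ) ≤ (1 / 2) ^ (n + 1) := by positivity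
    nlinarith
  have heδ : ∀ n, e n ≤ δ / 2 := by
    intro n
    simp only [he]
    have h3 : min (δ / 2) 1 ≤ δ / 2 := min_le_left _ _
    have h2 : (0 : ℝ) ≤ (1 / 2) ^ (n + 1) := by positivity
    have h4 : ((1 : ℝ) / 2) ^ (n + 1) ≤ 1 := pow_le_one₀ (by norm_num) (by norm_num)
    nlinarith
  classical
  refine ⟨fun n => if h : (t n).Nonempty then h.choose else 0, fun n => (d n).toReal + e n,
    fun n => ?_, fun n => ?_, ?_, ?_⟩
  · have := hepos n
    have h2 : 0 ≤ (d n).toReal := ENNReal.toReal_nonneg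
    linarith
  · have h2 : (d n).toReal ≤ δ / 2 := by
      have := ENNReal.toReal_mono ENNReal.ofReal_ne_top (hdle n)
      rwa [ENNReal.toReal_ofReal (by positivity)] at this
    have := heδ n
    linarith
  · have h2 : ∀ n, ENNReal.ofReal ((d n).toReal + e n) = d n + ENNReal.ofReal (e n) := by
      intro n
      rw [ENNReal.ofReal_add ENNReal.toReal_nonneg (hepos n).le, ENNReal.ofReal_toReal (hdtop n)]
    simp_rw [h2]
    rw [ENNReal.tsum_add, ENNReal.ofReal_add hC0.le one_pos.le]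
    apply add_le_add hsum.le
    have h3 : ∑' n, ENNReal.ofReal (e n) ≤ ∑' n : ℕ, ENNReal.ofReal ((1 / 2) ^ (n + 1)) :=
      ENNReal.tsum_le_tsum fun n => ENNReal.ofReal_le_ofReal (hele n)
    refine h3.trans ?_
    rw [← ENNReal.ofReal_tsum_of_nonneg (fun n => by positivity)
      ((summable_nat_add_iff 1).mpr (summable_geometric_of_lt_one (by norm_num) (by norm_num)))]
    apply ENNReal.ofReal_le_ofReal
    have h5 : ∀ n : ℕ, ((1 : ℝ) / 2) ^ (n + 1) = (1 / 2) * (1 / 2) ^ n := fun n => by ring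
    simp_rw [h5]
    rw [tsum_mul_left, tsum_geometric_of_lt_one (by norm_num) (by norm_num)]
    norm_num
  · intro z hz
    obtain ⟨i, hi⟩ := Set.mem_iUnion.mp (hTt hz)
    have hne : (t i).Nonempty := ⟨z, hi⟩
    refine ⟨i, ?_⟩
    simp only [hne, dif_pos]
    have h2 : edist z hne.choose ≤ d i := by
      simp only [hd]
      rw [iSup_pos hne, ENNReal.rpow_one]
      exact Metric.edist_le_ediam_of_mem hi hne.choose_spec
    have h3 : dist z hne.choose ≤ (d i).toReal := by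
      rw [edist_dist] at h2
      have := ENNReal.toReal_mono (hdtop i) h2
      rwa [ENNReal.toReal_ofReal dist_nonneg] at this
    rw [dist_eq_norm] at h3
    linarith [hepos i]

/-- The data of the barrier. -/
lemma barrier (T : ℕ → Set ℂ) (hT : ∀ k, μH[1] (T k) < ⊤) (δf : ℝ → ℝ)
    (hδf : ∀ η, 0 < η → 0 < δf η) :
    ∃ (x : ℕ × ℕ × ℕ → ℂ) (ρ m : ℕ × ℕ × ℕ → ℝ), (∀ j, 0 < ρ j) ∧ (∀ j, ρ j ≤ 1) ∧
      (∀ j, 0 < m j) ∧ (∑' j, ENNReal.ofReal (m j) < ⊤) ∧
      ∀ k, ∀ z ∈ T k, ∀ κ : ℝ, 0 < κ → ∀ δ0 : ℝ, 0 < δ0 → ∃ j, ‖z - x j‖ ≤ ρ j ∧ 4 * ρ j < δ0 ∧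
        ∃ η, 0 < η ∧ 4 * ρ j < δf η ∧ η * (4 * ρ j) < κ * m j := by
  have hC : ∀ k, ∃ C : ℝ, 0 < C ∧ μH[1] (T k) < ENNReal.ofReal C := by
    intro k
    refine ⟨(μH[1] (T k)).toReal + 1, by positivity, ?_⟩
    rw [ENNReal.lt_ofReal_iff_toReal_lt (hT k).ne]
    linarith
  choose C hC0 hC1 using hC
  -- stage parameters
  set η : ℕ → ℕ → ℝ := fun k n => (1 / 2) ^ (k + n) * (1 / 2) ^ (k + n) / (C k + 1) / 4 with hη
  have hηpos : ∀ k n, 0 < η k n := by
    intro k n
    have := hC0 k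
    simp only [hη]; positivity
  set δ : ℕ → ℕ → ℝ := fun k n => min (δf (η k n) / 8) ((1 / 2) ^ n) with hδ
  have hδpos : ∀ k n, 0 < δ k n := by
    intro k n
    have := hδf (η k n) (hηpos k n)
    simp only [hδ]
    exact lt_min (by positivity) (by positivity)
  have hcov := fun k n => cover (T k) (C k) (hC0 k) (hC1 k) (δ k n) (hδpos k n)
  choose x ρ h1 h2 h3 h4 using hcov
  refine ⟨fun j => x j.1 j.2.1 j.2.2, fun j => ρ j.1 j.2.1 j.2.2,
    fun j => (1 / 2) ^ (j.1 + j.2.1) / (C j.1 + 1) * ρ j.1 j.2.1 j.2.2,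
    fun j => h1 _ _ _, fun j => ?_, fun j => ?_, ?_, ?_⟩
  · refine (h2 j.1 j.2.1 j.2.2).trans ((min_le_right _ _).trans ?_)
    exact pow_le_one₀ (by norm_num) (by norm_num)
  · have := hC0 j.1
    have := h1 j.1 j.2.1 j.2.2
    positivity
  · rw [ENNReal.tsum_prod (f := fun k (p : ℕ × ℕ) =>
      ENNReal.ofReal ((1 / 2) ^ (k + p.1) / (C k + 1) * ρ k p.1 p.2))]
    have h5 : ∀ k, ∑' p : ℕ × ℕ, ENNReal.ofReal ((1 / 2) ^ (k + p.1) / (C k + 1) * ρ k p.1 p.2) ≤
        ∑' n : ℕ, ENNReal.ofReal ((1 / 2) ^ (k + n)) := by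
      intro k
      rw [ENNReal.tsum_prod (f := fun n i =>
        ENNReal.ofReal ((1 / 2) ^ (k + n) / (C k + 1) * ρ k n i))]
      apply ENNReal.tsum_le_tsum
      intro n
      have h6 : ∀ i, ENNReal.ofReal ((1 / 2) ^ (k + n) / (C k + 1) * ρ k n i) =
          ENNReal.ofReal ((1 / 2) ^ (k + n) / (C k + 1)) * ENNReal.ofReal (ρ k n i) := by
        intro i
        rw [ENNReal.ofReal_mul]
        have := hC0 k
        positivity
      simp_rw [h6]
      rw [ENNReal.tsum_mul_left]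
      refine (mul_le_mul_right (h3 k n) _).trans ?_
      rw [← ENNReal.ofReal_mul (by have := hC0 k; positivity)]
      apply ENNReal.ofReal_le_ofReal
      have := hC0 k
      field_simp
      exact le_rfl
    refine (ENNReal.tsum_le_tsum h5).trans_lt ?_
    have h7 : ∀ k : ℕ, ∑' n : ℕ, ENNReal.ofReal ((1 / 2) ^ (k + n)) =
        ENNReal.ofReal (2 * (1 / 2) ^ k) := by
      intro k
      rw [← ENNReal.ofReal_tsum_of_nonneg (fun n => by positivity)]
      · congr 1
        simp_rw [pow_add]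
        rw [tsum_mul_left, tsum_geometric_of_lt_one (by norm_num) (by norm_num)]
        ring
      · simp_rw [pow_add]
        exact (summable_geometric_of_lt_one (by norm_num) (by norm_num)).mul_left _
    simp_rw [h7]
    rw [← ENNReal.ofReal_tsum_of_nonneg (fun n => by positivity)
      ((summable_geometric_of_lt_one (by norm_num) (by norm_num)).mul_left _)]
    exact ENNReal.ofReal_lt_top
  · intro k z hz κ hκ δ0 hδ0
    obtain ⟨n, hn⟩ : ∃ n : ℕ, ((1 : ℝ) / 2) ^ n < min κ (δ0 / 4) :=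
      exists_pow_lt_of_lt_one (lt_min hκ (by positivity)) (by norm_num)
    obtain ⟨i, hi⟩ := h4 k n z hz
    have hρ := h1 k n i
    have hρle := h2 k n i
    have hle1 : ρ k n i ≤ δf (η k n) / 8 := hρle.trans (min_le_left _ _)
    have hle2 : ρ k n i ≤ (1 / 2) ^ n := hρle.trans (min_le_right _ _)
    have hκn := hn.trans_le (min_le_left _ _)
    have hδn := hn.trans_le (min_le_right _ _)
    refine ⟨(k, n, i), hi, by simp only; linarith, η k n, hηpos k n, ?_, ?_⟩
    · simp only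
      linarith
    · simp only [hη]
      have hCk := hC0 k
      have h8 : ((1 : ℝ) / 2) ^ (k + n) ≤ (1 / 2) ^ n :=
        pow_le_pow_of_le_one (by norm_num) (by norm_num) (by omega)
      have h9 : ((1 : ℝ) / 2) ^ (k + n) < κ := h8.trans_lt hκn
      have h10 : 0 < (1 / 2 : ℝ) ^ (k + n) / (C k + 1) * ρ k n i := by positivity
      calc (1 / 2 : ℝ) ^ (k + n) * (1 / 2) ^ (k + n) / (C k + 1) / 4 * (4 * ρ k n i)
          = (1 / 2) ^ (k + n) * ((1 / 2) ^ (k + n) / (C k + 1) * ρ k n i) := by ring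
        _ < κ * ((1 / 2) ^ (k + n) / (C k + 1) * ρ k n i) :=
            mul_lt_mul_of_pos_right h9 h10

end Pool.Agent.Y264.CA
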