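import Mathlib
import Pool.Agent.Y264.CA.Bar
import Pool.Agent.Results.MP_be4214_an.ArealCircleDerivative

open Complex Filter Metric Real Set Topology MeasureTheory
open scoped ENNReal

namespace Pool.Agent.Y264.CA

open Pool.Agent.Results.MP_be4214_an.ArealCircleDerivative

/-- The barrier. -/
noncomputable def Apot (L : ℝ) (x : ℕ × ℕ × ℕ → ℂ) (ρ m : ℕ × ℕ × ℕ → ℝ) (z : ℂ) : ℝ≥0∞ :=
  ∑' j, ENNReal.ofReal (m j * psi L (x j) (ρ j) z)

lemma continuous_term (L : ℝ) (x : ℂ) (ρ m : ℝ) (hρ : 0 < ρ) :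
    Continuous (fun z => ENNReal.ofReal (m * psi L x ρ z)) :=
  ENNReal.continuous_ofReal.comp (continuous_const.mul (continuous_psi L x hρ))

lemma lsc_Apot (L : ℝ) (x : ℕ × ℕ × ℕ → ℂ) (ρ m : ℕ × ℕ × ℕ → ℝ) (hρ : ∀ j, 0 < ρ j) :
    LowerSemicontinuous (Apot L x ρ m) :=
  lowerSemicontinuous_tsum fun j => (continuous_term L (x j) (ρ j) (m j) (hρ j)).lowerSemicontinuous

lemma measurable_Apot (L : ℝ) (x : ℕ × ℕ × ℕ → ℂ) (ρ m : ℕ × ℕ × ℕ → ℝ) (hρ : ∀ j, 0 < ρ j) :
    Measurable (Apot L x ρ m) :=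
  Measurable.ennreal_tsum fun j => (continuous_term L (x j) (ρ j) (m j) (hρ j)).measurable

lemma lintegral_circle (f : ℂ → ℝ) (z : ℂ) (r : ℝ) (hf : CircleIntegrable f z r)
    (h0 : ∀ θ : ℝ, 0 ≤ f (circleMap z r θ)) :
    ∫⁻ θ in Ioc (0 : ℝ) (2 * π), ENNReal.ofReal (f (circleMap z r θ)) =
      ENNReal.ofReal (2 * π * circleAverage f z r) := by
  have h1 : IntervalIntegrable (fun θ : ℝ => f (circleMap z r θ)) volume 0 (2 * π) := hf
  rw [intervalIntegrable_iff_integrableOn_Ioc_of_le (by positivity)] at h1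
  rw [← ofReal_integral_eq_lintegral_ofReal h1 (Eventually.of_forall h0), circleAverage_def,
    intervalIntegral.integral_of_le (by positivity), smul_eq_mul]
  congr 1
  field_simp

lemma Apot_circle (L : ℝ) (x : ℕ × ℕ × ℕ → ℂ) (ρ m : ℕ × ℕ × ℕ → ℝ) (hρ : ∀ j, 0 < ρ j)
    (hm : ∀ j, 0 ≤ m j) (z : ℂ) (r : ℝ) (hr : 0 < r)
    (hn : ∀ j w, w ∈ closedBall z r → 0 ≤ m j * psi L (x j) (ρ j) w) (j0 : ℕ × ℕ × ℕ) (g : ℝ)
    (hg : 0 ≤ g) (hgain : circleAverage (psi L (x j0) (ρ j0)) z r + g ≤ psi L (x j0) (ρ j0) z) :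
    (∫⁻ θ in Ioc (0 : ℝ) (2 * π), Apot L x ρ m (circleMap z r θ)) + ENNReal.ofReal (2 * π * (m j0 * g)) ≤
      ENNReal.ofReal (2 * π) * Apot L x ρ m z := by
  unfold Apot
  rw [lintegral_tsum]
  swap
  · intro j
    exact ((continuous_term L (x j) (ρ j) (m j) (hρ j)).comp
      (continuous_circleMap z r)).measurable.aemeasurable
  have h1 : ∀ j, ∫⁻ θ in Ioc (0 : ℝ) (2 * π),
      ENNReal.ofReal (m j * psi L (x j) (ρ j) (circleMap z r θ)) =
      ENNReal.ofReal (2 * π * (m j * circleAverage (psi L (x j) (ρ j)) z r)) := by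
    intro j
    rw [lintegral_circle (fun w => m j * psi L (x j) (ρ j) w) z r]
    · congr 2
      have := circleAverage_fun_smul (a := m j) (f := psi L (x j) (ρ j)) (c := z) (R := r)
      simpa only [smul_eq_mul] using this
    · exact (continuous_const.mul (continuous_psi L (x j) (hρ j))).continuousOn.circleIntegrable hr.le
    · intro θ
      apply hn
      exact sphere_subset_closedBall (circleMap_mem_sphere z hr.le θ)
  simp_rw [h1]
  have h2 : ∑' j, (if j = j0 then ENNReal.ofReal (2 * π * (m j0 * g)) else 0) =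
      ENNReal.ofReal (2 * π * (m j0 * g)) := tsum_ite_eq j0 _
  rw [← h2, ← ENNReal.tsum_add, ← ENNReal.tsum_mul_left]
  apply ENNReal.tsum_le_tsum
  intro j
  rw [← ENNReal.ofReal_mul (by positivity)]
  have hπ := Real.pi_pos
  have h3 := circleAverage_psi_le L (x j) (hρ j) z hr
  split_ifs with hj
  · subst hj
    rw [← ENNReal.ofReal_add]
    · apply ENNReal.ofReal_le_ofReal
      nlinarith [hm j, mul_le_mul_of_nonneg_left hgain (mul_nonneg hπ.le (hm j))]
    · have h4 : 0 ≤ circleAverage (fun w => m j * psi L (x j) (ρ j) w) z r := by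
        have h5 := circleAverage_mono (c := z) (R := r) (f₁ := fun _ : ℂ => (0 : ℝ))
          (f₂ := fun w => m j * psi L (x j) (ρ j) w) (circleIntegrable_const _ _ _)
          ((continuous_const.mul (continuous_psi L (x j) (hρ j))).continuousOn.circleIntegrable hr.le)
          (fun w hw => hn j w (by rw [abs_of_pos hr] at hw; exact sphere_subset_closedBall hw))
        rwa [circleAverage_const] at h5
      have h6 : circleAverage (fun w => m j * psi L (x j) (ρ j) w) z r =
          m j * circleAverage (psi L (x j) (ρ j)) z r := by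
        have := circleAverage_fun_smul (a := m j) (f := psi L (x j) (ρ j)) (c := z) (R := r)
        simpa only [smul_eq_mul] using this
      rw [h6] at h4
      positivity
    · have := hm j
      positivity
  · rw [add_zero]
    apply ENNReal.ofReal_le_ofReal
    have := mul_le_mul_of_nonneg_left h3 (mul_nonneg hπ.le (hm j))
    nlinarith

lemma exists_finite (c : ℂ) (R : ℝ) (hR : 0 < R) :
    ∃ M : ℝ≥0∞, M < ⊤ ∧ ∀ (x : ℂ) (ρ : ℝ), 0 < ρ → ρ ≤ 1 → ‖x - c‖ ≤ R + 1 →
      ∫⁻ z in ball c R, ENNReal.ofReal (psi (2 * R + 2) x ρ z) ≤ M := by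
  set L : ℝ := 2 * R + 2 with hL
  refine ⟨∫⁻ y in ball (0 : ℂ) L, ENNReal.ofReal (L * ‖y‖⁻¹), ?_, ?_⟩
  · have h1 : IntegrableOn (fun ξ : ℂ => ‖Pool.Agent.Results.MP_be4214_an.ArealCircleDerivative.ker ξ‖) (closedBall (0 : ℂ) L) volume :=
      locallyIntegrable_norm_ker.integrableOn_isCompact (isCompact_closedBall _ _)
    have h2 : IntegrableOn (fun ξ : ℂ => L * ‖ξ‖⁻¹) (ball (0 : ℂ) L) volume := by
      have h4 := Integrable.const_mul (h1.mono_set ball_subset_closedBall) L
      simp only [norm_ker] at h4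
      exact h4
    have h3 := h2.2
    rw [hasFiniteIntegral_iff_ofReal (Eventually.of_forall fun y => by positivity)] at h3
    exact h3
  · intro x ρ hρ hρ1 hx
    rw [← lintegral_indicator measurableSet_ball, ← lintegral_indicator measurableSet_ball]
    rw [← lintegral_sub_right_eq_self (μ := (volume : Measure ℂ))
      (fun y => (ball (0 : ℂ) L).indicator (fun y => ENNReal.ofReal (L * ‖y‖⁻¹)) y) x]
    apply lintegral_mono_ae
    have hae : ∀ᵐ z ∂(volume : Measure ℂ), z ≠ x := by
      rw [ae_iff]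
      simp
    filter_upwards [hae] with z hz
    by_cases hzb : z ∈ ball c R
    · have hmem : z - x ∈ ball (0 : ℂ) L := by
        rw [mem_ball, dist_zero_right]
        rw [mem_ball, dist_eq_norm] at hzb
        calc ‖z - x‖ = ‖(z - c) - (x - c)‖ := by congr 1; ring
          _ ≤ ‖z - c‖ + ‖x - c‖ := norm_sub_le _ _
          _ < L := by rw [hL]; linarith
      rw [Set.indicator_of_mem hzb, Set.indicator_of_mem hmem]
      apply ENNReal.ofReal_le_ofReal
      have hpos : 0 < ‖z - x‖ := norm_pos_iff.mpr (sub_ne_zero.mpr hz)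
      unfold psi
      have h4 : Real.log ‖z - x‖ ≤ Real.log (max ‖z - x‖ ρ) :=
        Real.log_le_log hpos (le_max_left _ _)
      have hL0 : 0 < L := by rw [hL]; linarith
      have h5 : Real.log (L * ‖z - x‖⁻¹) ≤ L * ‖z - x‖⁻¹ := by
        have := Real.log_le_sub_one_of_pos (show 0 < L * ‖z - x‖⁻¹ by positivity)
        linarith
      rw [Real.log_mul hL0.ne' (inv_ne_zero hpos.ne'), Real.log_inv] at h5
      linarith
    · rw [Set.indicator_of_notMem hzb]
      exact bot_le

/-- Maximum principle with an exceptional set of sigma-finite length. -/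
lemma max_principle' (c : ℂ) (R : ℝ) (hR : 0 < R) (u : ℂ → ℝ)
    (hu : ContinuousOn u (closedBall c R)) (T : ℕ → Set ℂ) (hT : ∀ k, μH[1] (T k) < ⊤)
    (δf : ℝ → ℝ) (hδf : ∀ η, 0 < η → 0 < δf η)
    (hU : ∀ η, 0 < η → ∀ z ∈ ball c R, ∀ r, 0 < r → r < δf η → closedBall z r ⊆ closedBall c R →
      -(η * r) ≤ circleAverage u z r - u z)
    (hB : ∀ z ∈ ball c R, (∀ k, z ∉ T k) → ∀ η, 0 < η →
      ∃ᶠ r in 𝓝[>] (0 : ℝ), -(η * r ^ 2) ≤ circleAverage u z r - u z)
    (hbd : ∀ z ∈ sphere c R, u z ≤ 0) : ∀ z ∈ closedBall c R, u z ≤ 0 := by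
  obtain ⟨x, ρ, m0, hρ, hρ1, hm0, hm0s, hbar⟩ := barrier T hT δf hδf
  set L : ℝ := 2 * R + 2 with hL
  set m : ℕ × ℕ × ℕ → ℝ := fun j => if ‖x j - c‖ ≤ R + 1 then m0 j else 0 with hmdef
  have hm : ∀ j, 0 ≤ m j := by
    intro j
    simp only [hmdef]
    split_ifs
    · exact (hm0 j).le
    · exact le_rfl
  have hmle : ∀ j, m j ≤ m0 j := by
    intro j
    simp only [hmdef]
    split_ifs
    · exact le_rfl
    · exact (hm0 j).le
  have hn : ∀ j, ∀ w ∈ closedBall c R, 0 ≤ m j * psi L (x j) (ρ j) w := by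
    intro j w hw
    simp only [hmdef]
    split_ifs with hj
    · apply mul_nonneg (hm0 j).le
      apply psi_nonneg L (x j) (hρ j)
      · rw [mem_closedBall, dist_eq_norm] at hw
        calc ‖w - x j‖ = ‖(w - c) - (x j - c)‖ := by congr 1; ring
          _ ≤ ‖w - c‖ + ‖x j - c‖ := norm_sub_le _ _
          _ ≤ L := by rw [hL]; linarith
      · have := hρ1 j
        rw [hL]; linarith
    · rw [zero_mul]
  -- finiteness almost everywhere
  have hfin : ∀ᵐ z ∂(volume.restrict (ball c R)), Apot L x ρ m z < ⊤ := by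
    apply ae_lt_top (measurable_Apot L x ρ m hρ)
    obtain ⟨M, hM, hMb⟩ := exists_finite c R hR
    have h1 : ∫⁻ z in ball c R, Apot L x ρ m z ≤ (∑' j, ENNReal.ofReal (m0 j)) * M := by
      unfold Apot
      rw [lintegral_tsum fun j => (continuous_term L (x j) (ρ j) (m j) (hρ j)).measurable.aemeasurable,
        ← ENNReal.tsum_mul_right]
      apply ENNReal.tsum_le_tsum
      intro j
      simp_rw [ENNReal.ofReal_mul (hm j)]
      rw [lintegral_const_mul' _ _ ENNReal.ofReal_ne_top]
      by_cases hj : ‖x j - c‖ ≤ R + 1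
      · exact mul_le_mul' (ENNReal.ofReal_le_ofReal (hmle j)) (hMb (x j) (ρ j) (hρ j) (hρ1 j) hj)
      · have : m j = 0 := by simp only [hmdef, hj, if_false]
        rw [this]
        simp
    exact (h1.trans_lt (ENNReal.mul_lt_top hm0s hM)).ne
  by_contra hcon
  push Not at hcon
  obtain ⟨z0, hz0, hpos⟩ := hcon
  have hz0b : z0 ∈ ball c R := by
    rcases (mem_closedBall.mp hz0).lt_or_eq with h | h
    · exact h
    · exact absurd (hbd z0 (mem_sphere.mpr h)) (not_le.mpr hpos)
  set D : ℝ := u z0 with hD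
  set ε : ℝ := D / (4 * R ^ 2) with hε
  have hεpos : 0 < ε := by positivity
  have hεR : ε * R ^ 2 = D / 4 := by rw [hε]; field_simp
  set v : ℂ → ℝ := fun z => u z + ε * (‖z - c‖ ^ 2 - R ^ 2) with hv
  have hvc : ContinuousOn v (closedBall c R) := by
    apply hu.add
    exact Continuous.continuousOn (by fun_prop)
  -- a point where everything is finite
  obtain ⟨z1, hz1b, hz1u, hz1f⟩ : ∃ z1 ∈ ball c R, 3 / 4 * D < u z1 ∧ Apot L x ρ m z1 < ⊤ := by
    have hopen : IsOpen (ball c R ∩ u ⁻¹' Ioi (3 / 4 * D)) :=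
      (hu.mono ball_subset_closedBall).isOpen_inter_preimage isOpen_ball isOpen_Ioi
    have hne : (ball c R ∩ u ⁻¹' Ioi (3 / 4 * D)).Nonempty :=
      ⟨z0, hz0b, by simp only [mem_preimage, mem_Ioi, ← hD]; linarith⟩
    have hposm := hopen.measure_pos (volume : Measure ℂ) hne
    have h2 := (ae_restrict_iff' measurableSet_ball).mp hfin
    by_contra hno
    push Not at hno
    have h3 : (ball c R ∩ u ⁻¹' Ioi (3 / 4 * D)) ⊆
        {z | ¬ (z ∈ ball c R → Apot L x ρ m z < ⊤)} := by
      intro z hz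
      simp only [mem_ofPred_eq, Classical.not_imp]
      exact ⟨hz.1, by
        have := hno z hz.1 hz.2
        exact not_lt.mpr this⟩
    have h4 : volume (ball c R ∩ u ⁻¹' Ioi (3 / 4 * D)) = 0 := measure_mono_null h3 (ae_iff.mp h2)
    rw [h4] at hposm
    exact lt_irrefl _ hposm
  set a : ℝ := (Apot L x ρ m z1).toReal with ha
  have ha0 : 0 ≤ a := ENNReal.toReal_nonneg
  set κ : ℝ := D / (4 * (a + 1)) with hκ
  have hκpos : 0 < κ := by positivity
  have hκa : κ * a < D / 4 := by
    rw [hκ, div_mul_eq_mul_div, div_lt_div_iff₀ (by positivity) (by norm_num)]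
    nlinarith
  set m2 : ℕ × ℕ × ℕ → ℝ := fun j => κ * m j with hm2
  have hm2' : ∀ j, 0 ≤ m2 j := fun j => mul_nonneg hκpos.le (hm j)
  have hn2 : ∀ j, ∀ w ∈ closedBall c R, 0 ≤ m2 j * psi L (x j) (ρ j) w := by
    intro j w hw
    have := mul_nonneg hκpos.le (hn j w hw)
    simp only [hm2]
    rwa [mul_assoc]
  have hscale : ∀ z, Apot L x ρ m2 z = ENNReal.ofReal κ * Apot L x ρ m z := by
    intro z
    unfold Apot
    rw [← ENNReal.tsum_mul_left]
    congr 1
    funext j
    rw [← ENNReal.ofReal_mul hκpos.le]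
    simp only [hm2, mul_assoc]
  obtain ⟨K, hK⟩ := (isCompact_closedBall c R).exists_bound_of_continuousOn hvc
  have hKv : ∀ z ∈ closedBall c R, v z ≤ K := fun z hz => (le_abs_self _).trans (hK z hz)
  have hv1 : D / 2 < v z1 := by
    simp only [hv]
    have : 0 ≤ ε * ‖z1 - c‖ ^ 2 := by positivity
    nlinarith
  have hK0 : 0 < K := by
    have := hKv z1 (ball_subset_closedBall hz1b)
    linarith
  set G : ℂ → ℝ≥0∞ := fun z => Apot L x ρ m2 z + ENNReal.ofReal (K - v z) with hG
  have hGl : LowerSemicontinuousOn G (closedBall c R) := by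
    apply LowerSemicontinuousOn.add
    · exact (lsc_Apot L x ρ m2 hρ).lowerSemicontinuousOn _
    · exact (ENNReal.continuous_ofReal.comp_continuousOn
        (continuousOn_const.sub hvc)).lowerSemicontinuousOn
  obtain ⟨w, hw, hwmin⟩ := LowerSemicontinuousOn.exists_isMinOn ⟨z0, hz0⟩
    (isCompact_closedBall c R) hGl
  have hGw : G w < ENNReal.ofReal K := by
    refine (hwmin (ball_subset_closedBall hz1b)).trans_lt ?_
    simp only [hG]
    rw [hscale, ← ENNReal.ofReal_toReal hz1f.ne, ← ENNReal.ofReal_mul hκpos.le,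
      ← ENNReal.ofReal_add (by positivity)
        (by linarith [hKv z1 (ball_subset_closedBall hz1b)])]
    apply (ENNReal.ofReal_lt_ofReal_iff hK0).mpr
    rw [← ha]
    linarith
  have hwb : w ∈ ball c R := by
    rcases (mem_closedBall.mp hw).lt_or_eq with h | h
    · exact h
    · exfalso
      have h1 := hbd w (mem_sphere.mpr h)
      have h2 : ‖w - c‖ = R := by rw [← dist_eq_norm]; exact h
      have h3 : v w ≤ 0 := by
        simp only [hv, h2, sub_self, mul_zero, add_zero]
        exact h1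
      have h4 : ENNReal.ofReal K ≤ G w := by
        simp only [hG]
        refine le_trans (ENNReal.ofReal_le_ofReal ?_) le_add_self
        linarith
      exact absurd hGw (not_lt.mpr h4)
  have hwf : Apot L x ρ m2 w ≠ ⊤ := by
    have h1 : Apot L x ρ m2 w ≤ G w := by
      simp only [hG]
      exact le_self_add
    exact (h1.trans_lt (hGw.trans ENNReal.ofReal_lt_top)).ne
  obtain ⟨ρ0, hρ0, hball⟩ := Metric.isOpen_iff.mp isOpen_ball w hwb
  have hsmall : ∀ r : ℝ, r < ρ0 → closedBall w r ⊆ closedBall c R := fun r hrρ =>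
    (closedBall_subset_ball hrρ).trans (hball.trans ball_subset_closedBall)
  -- the comparison of means
  have key : ∀ r : ℝ, 0 < r → r < ρ0 → ∀ (j0 : ℕ × ℕ × ℕ) (g : ℝ), 0 ≤ g →
      circleAverage (psi L (x j0) (ρ j0)) w r + g ≤ psi L (x j0) (ρ j0) w →
      circleAverage u w r - u w ≤ -(ε * r ^ 2) - κ * m j0 * g := by
    intro r hr hrρ j0 g hg hgain
    have hsub := hsmall r hrρ
    have hint_u : CircleIntegrable u w r :=
      ContinuousOn.circleIntegrable hr.le (hu.mono (sphere_subset_closedBall.trans hsub))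
    have hint_v : CircleIntegrable v w r :=
      ContinuousOn.circleIntegrable hr.le (hvc.mono (sphere_subset_closedBall.trans hsub))
    have hint_q : CircleIntegrable (fun z : ℂ => ε * (‖z - c‖ ^ 2 - R ^ 2)) w r := by
      apply ContinuousOn.circleIntegrable hr.le
      exact Continuous.continuousOn (by fun_prop)
    have h2 : circleAverage v w r = circleAverage u w r +
        circleAverage (fun z : ℂ => ε * (‖z - c‖ ^ 2 - R ^ 2)) w r :=
      circleAverage_fun_add hint_u hint_q
    have h3 : circleAverage (fun z : ℂ => ε * (‖z - c‖ ^ 2 - R ^ 2)) w r =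
        ε * (‖w - c‖ ^ 2 + r ^ 2 - R ^ 2) := by
      have h4 : circleAverage (fun z : ℂ => ε * (‖z - c‖ ^ 2 - R ^ 2)) w r =
        ε • circleAverage (fun z : ℂ => (‖z - c‖ ^ 2 - R ^ 2)) w r := by
        rw [← circleAverage_fun_smul]; rfl
      rw [h4, circleAverage_fun_sub, circleAverage_normSq_sub, circleAverage_const]
      · rfl
      · apply ContinuousOn.circleIntegrable hr.le
        exact Continuous.continuousOn (by fun_prop)
      · apply ContinuousOn.circleIntegrable hr.le
        exact Continuous.continuousOn (by fun_prop)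
    have h5 := Apot_circle L x ρ m2 hρ hm2' w r hr (fun j y hy => hn2 j y (hsub hy)) j0 g hg hgain
    have h6 : ∫⁻ θ in Ioc (0 : ℝ) (2 * π), ENNReal.ofReal (K - v (circleMap w r θ)) =
        ENNReal.ofReal (2 * π * (K - circleAverage v w r)) := by
      rw [lintegral_circle (fun y => K - v y) w r ((circleIntegrable_const K w r).sub hint_v)]
      · rw [circleAverage_fun_sub (circleIntegrable_const K w r) hint_v, circleAverage_const]
      · intro θ
        have := hKv (circleMap w r θ) (hsub (sphere_subset_closedBall (circleMap_mem_sphere w hr.le θ)))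
        linarith
    have h7 : ENNReal.ofReal (2 * π) * G w ≤
        ∫⁻ θ in Ioc (0 : ℝ) (2 * π), G (circleMap w r θ) := by
      have h8 : ∫⁻ _ in Ioc (0 : ℝ) (2 * π), G w = ENNReal.ofReal (2 * π) * G w := by
        rw [setLIntegral_const, Real.volume_Ioc, sub_zero, mul_comm]
      rw [← h8]
      apply lintegral_mono
      intro θ
      exact hwmin (hsub (sphere_subset_closedBall (circleMap_mem_sphere w hr.le θ)))
    have h9 : ∫⁻ θ in Ioc (0 : ℝ) (2 * π), G (circleMap w r θ) =
        (∫⁻ θ in Ioc (0 : ℝ) (2 * π), Apot L x ρ m2 (circleMap w r θ)) +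
          ENNReal.ofReal (2 * π * (K - circleAverage v w r)) := by
      simp only [hG]
      rw [← h6]
      exact lintegral_add_left ((measurable_Apot L x ρ m2 hρ).comp
        (continuous_circleMap w r).measurable) _
    rw [h9] at h7
    have hπ := Real.pi_pos
    have hKw : 0 ≤ K - v w := by linarith [hKv w hw]
    have h10 : ENNReal.ofReal (2 * π) * Apot L x ρ m2 w +
        ENNReal.ofReal (2 * π * (K - v w) + 2 * π * (m2 j0 * g)) ≤
        ENNReal.ofReal (2 * π) * Apot L x ρ m2 w +
        ENNReal.ofReal (2 * π * (K - circleAverage v w r)) := by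
      have hg2 : 0 ≤ m2 j0 * g := mul_nonneg (hm2' j0) hg
      calc ENNReal.ofReal (2 * π) * Apot L x ρ m2 w +
          ENNReal.ofReal (2 * π * (K - v w) + 2 * π * (m2 j0 * g))
          = ENNReal.ofReal (2 * π) * G w + ENNReal.ofReal (2 * π * (m2 j0 * g)) := by
            rw [ENNReal.ofReal_add (by positivity) (by positivity)]
            simp only [hG]
            rw [mul_add, ← ENNReal.ofReal_mul (by positivity), add_assoc]
        _ ≤ ((∫⁻ θ in Ioc (0 : ℝ) (2 * π), Apot L x ρ m2 (circleMap w r θ)) +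
              ENNReal.ofReal (2 * π * (K - circleAverage v w r))) +
              ENNReal.ofReal (2 * π * (m2 j0 * g)) := by gcongr
        _ = ((∫⁻ θ in Ioc (0 : ℝ) (2 * π), Apot L x ρ m2 (circleMap w r θ)) +
              ENNReal.ofReal (2 * π * (m2 j0 * g))) +
              ENNReal.ofReal (2 * π * (K - circleAverage v w r)) := by
            rw [add_right_comm]
        _ ≤ _ := by gcongr
    have h11 : ENNReal.ofReal (2 * π * (K - v w) + 2 * π * (m2 j0 * g)) ≤
        ENNReal.ofReal (2 * π * (K - circleAverage v w r)) :=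
      (ENNReal.add_le_add_iff_left (ENNReal.mul_ne_top ENNReal.ofReal_ne_top hwf)).mp h10
    have havg : 0 ≤ K - circleAverage v w r := by
      have : circleAverage v w r ≤ K := by
        apply circleAverage_mono_on_of_le_circle hint_v
        intro y hy
        rw [abs_of_pos hr] at hy
        exact hKv y (hsub (sphere_subset_closedBall hy))
      linarith
    have h12 := (ENNReal.ofReal_le_ofReal_iff (by positivity)).mp h11
    rw [h2, h3] at h12
    simp only [hv, hm2] at h12
    have h13 : (u w + ε * (‖w - c‖ ^ 2 - R ^ 2)) - κ * m j0 * g ≥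
        circleAverage u w r + ε * (‖w - c‖ ^ 2 + r ^ 2 - R ^ 2) := by
      have h14 : 2 * π * (circleAverage u w r + ε * (‖w - c‖ ^ 2 + r ^ 2 - R ^ 2)) ≤
        2 * π * ((u w + ε * (‖w - c‖ ^ 2 - R ^ 2)) - κ * m j0 * g) := by linarith
      exact le_of_mul_le_mul_left h14 (by positivity)
    linarith
  by_cases hwT : ∃ k, w ∈ T k
  · obtain ⟨k, hk⟩ := hwT
    have hlog : 0 < Real.log 3 := Real.log_pos (by norm_num)
    obtain ⟨j, hj1, hj2, η, hη, hj3, hj4⟩ := hbar k w hk (κ * Real.log 3) (by positivity) ρ0 hρ0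
    have hρj := hρ j
    have h1 := key (4 * ρ j) (by positivity) hj2 j (Real.log 3) hlog.le (by
      have := circleAverage_psi_gain L (x j) (hρ j) w hj1 le_rfl
      linarith)
    have hmj : m j = m0 j := by
      have : ‖x j - c‖ ≤ R + 1 := by
        rw [mem_ball, dist_eq_norm] at hwb
        calc ‖x j - c‖ = ‖(w - c) - (w - x j)‖ := by congr 1; ring
          _ ≤ ‖w - c‖ + ‖w - x j‖ := norm_sub_le _ _
          _ ≤ R + 1 := by linarith [hρ1 j]
      simp only [hmdef, this, if_true]
    have h2 := hU η hη w hwb (4 * ρ j) (by positivity) hj3 (hsmall _ hj2)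
    rw [hmj] at h1
    have h3 : 0 < ε * (4 * ρ j) ^ 2 := by positivity
    nlinarith
  · push Not at hwT
    have h1 := hB w hwb hwT (ε / 2) (by positivity)
    have h2 : ∀ᶠ r : ℝ in 𝓝[>] 0, r ∈ Ioo 0 ρ0 := Ioo_mem_nhdsGT hρ0
    obtain ⟨r, hr1, hr2⟩ := (h1.and_eventually h2).exists
    have h3 := key r hr2.1 hr2.2 (0, 0, 0) 0 le_rfl (by
      have := circleAverage_psi_le L (x (0, 0, 0)) (hρ (0, 0, 0)) w hr2.1
      linarith)
    have h4 : 0 < ε * r ^ 2 := by have := hr2.1; positivity
    linarith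

end Pool.Agent.Y264.CA
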