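import Mathlib
import Pool.Agent.Y264.CA.Max

open Complex Filter Metric Real Set Topology MeasureTheory
open scoped ENNReal

namespace Pool.Agent.Y264.CA

open Pool.Agent.Results.MP_be4214_an.ArealCircleDerivative

/-- Mean value property from one sided conditions outside a set of sigma-finite length. -/
lemma bp' (c : ℂ) (R : ℝ) (hR : 0 < R) (u : ℂ → ℝ)
    (hu : ContinuousOn u (closedBall c R)) (T : ℕ → Set ℂ) (hT : ∀ k, μH[1] (T k) < ⊤)
    (δf : ℝ → ℝ) (hδf : ∀ η, 0 < η → 0 < δf η)
    (hU : ∀ η, 0 < η → ∀ z ∈ ball c R, ∀ r, 0 < r → r < δf η →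
      |circleAverage u z r - u z| ≤ η * r)
    (hB : ∀ z ∈ ball c R, (∀ k, z ∉ T k) → ∀ η, 0 < η →
      (∃ᶠ r in 𝓝[>] (0 : ℝ), -(η * r ^ 2) ≤ circleAverage u z r - u z) ∧
      (∃ᶠ r in 𝓝[>] (0 : ℝ), circleAverage u z r - u z ≤ η * r ^ 2)) :
    circleAverage u c R = u c := by
  have : Fact (0 < 2 * π) := ⟨Real.two_pi_pos⟩
  -- boundary values as a continuous function on the circle
  have hper : Function.Periodic (fun t : ℝ => ((u (circleMap c R t) : ℝ) : ℂ)) (2 * π) := by
    intro t
    simp only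
    rw [periodic_circleMap c R t]
  have hcont : Continuous (fun t : ℝ => ((u (circleMap c R t) : ℝ) : ℂ)) := by
    apply Complex.continuous_ofReal.comp
    rw [← continuousOn_univ]
    apply hu.comp (continuous_circleMap c R).continuousOn
    intro t _
    exact sphere_subset_closedBall (circleMap_mem_sphere c hR.le t)
  let g : C(AddCircle (2 * π), ℂ) := ⟨hper.lift, by
    apply continuous_coinduced_dom.mpr
    exact hcont⟩
  have hg : ∀ t : ℝ, g (t : AddCircle (2 * π)) = ((u (circleMap c R t) : ℝ) : ℂ) := fun t => rfl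
  refine eq_of_forall_dist_le fun δ hδ => ?_
  have hδ2 : 0 < δ / 2 := by positivity
  obtain ⟨p, hp, hpg⟩ : ∃ p ∈ Submodule.span ℂ (Set.range (@fourier (2 * π))), dist g p < δ / 2 := by
    have h1 : g ∈ (Submodule.span ℂ (Set.range (@fourier (2 * π)))).topologicalClosure := by
      rw [span_fourier_closure_eq_top]; trivial
    exact Metric.mem_closure_iff.mp h1 (δ / 2) hδ2
  obtain ⟨h, hc, hmv, hbdry⟩ := exists_harmonic_ext c R hR p hp
  set k : ℂ → ℝ := fun z => (h z).re with hk
  have hkc : Continuous k := Complex.continuous_re.comp hc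
  have hkmv : ∀ z r, circleAverage k z r = k z := by
    intro z r
    have h2 := (Complex.reCLM).circleAverage_comp_comm (c := z) (R := r)
      (f := h) (hc.continuousOn.circleIntegrable')
    rw [hmv] at h2
    exact h2
  have hclose : ∀ z ∈ sphere c R, |u z - k z| ≤ δ / 2 := by
    intro z hz
    obtain ⟨t, rfl⟩ : ∃ t : ℝ, circleMap c R t = z := by
      have : z ∈ Set.range (circleMap c R) := by
        rw [range_circleMap, abs_of_pos hR]; exact hz
      exact this
    have h3 : dist (g (t : AddCircle (2 * π))) (p t) ≤ dist g p := ContinuousMap.dist_apply_le_dist _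
    rw [hg, ← hbdry, dist_eq_norm] at h3
    have h4 : |((((u (circleMap c R t) : ℝ) : ℂ)) - h (circleMap c R t)).re| ≤ _ :=
      Complex.abs_re_le_norm _
    simp only [Complex.sub_re, Complex.ofReal_re] at h4
    simp only [hk]
    linarith
  have hdiff : ∀ (s : ℝ) (b : ℝ), ∀ z : ℂ, ∀ r : ℝ, 0 < r → sphere z r ⊆ closedBall c R →
      circleAverage (fun z => s * (u z - k z) + b) z r - (s * (u z - k z) + b) =
        s * (circleAverage u z r - u z) := by
    intro s b z r hr hsub
    have hintu : CircleIntegrable u z r := ContinuousOn.circleIntegrable hr.le (hu.mono hsub)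
    have hintk : CircleIntegrable k z r := ContinuousOn.circleIntegrable hr.le hkc.continuousOn
    have h6 : circleAverage (fun z => s * (u z - k z) + b) z r =
        s * (circleAverage u z r - k z) + b := by
      rw [circleAverage_fun_add, circleAverage_const]
      · congr 1
        have h7 : circleAverage (fun z => s * (u z - k z)) z r =
          s • circleAverage (fun z => (u z - k z)) z r := by
          rw [← circleAverage_fun_smul]; rfl
        rw [h7, circleAverage_fun_sub hintu hintk, hkmv]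
        rfl
      · apply ContinuousOn.circleIntegrable hr.le
        exact ContinuousOn.mul continuousOn_const ((hu.mono hsub).sub hkc.continuousOn)
      · exact circleIntegrable_const _ _ _
    rw [h6]
    ring
  have hin : ∀ (s : ℝ), (s = 1 ∨ s = -1) → s * (u c - k c) + (-(δ / 2)) ≤ 0 := by
    intro s hs
    have habs : |s| = 1 := by rcases hs with rfl | rfl <;> simp
    have h8 := max_principle' c R hR (fun z => s * (u z - k z) + (-(δ / 2)))
      (ContinuousOn.add (ContinuousOn.mul continuousOn_const (hu.sub hkc.continuousOn))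
        continuousOn_const) T hT δf hδf (by
        intro η hη z hz r hr hrδ hsub
        rw [hdiff s _ z r hr (sphere_subset_closedBall.trans hsub)]
        have h1 := hU η hη z hz r hr hrδ
        have h2 : |s * (circleAverage u z r - u z)| ≤ η * r := by
          rw [abs_mul, habs, one_mul]; exact h1
        exact (abs_le.mp h2).1) (by
        intro z hz hzT η hη
        obtain ⟨h1, h2⟩ := hB z hz hzT η hη
        obtain ⟨ρ, hρ, hball⟩ := Metric.isOpen_iff.mp isOpen_ball z hz
        have hev : ∀ᶠ r : ℝ in 𝓝[>] 0, r ∈ Ioo 0 ρ := Ioo_mem_nhdsGT hρ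
        rcases hs with rfl | rfl
        · refine (h1.and_eventually hev).mono ?_
          rintro r ⟨h3, h4⟩
          rw [hdiff 1 _ z r h4.1 ((sphere_subset_closedBall.trans (closedBall_subset_ball h4.2)).trans
            (hball.trans ball_subset_closedBall))]
          linarith
        · refine (h2.and_eventually hev).mono ?_
          rintro r ⟨h3, h4⟩
          rw [hdiff (-1) _ z r h4.1 ((sphere_subset_closedBall.trans (closedBall_subset_ball h4.2)).trans
            (hball.trans ball_subset_closedBall))]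
          linarith) (by
        intro z hz
        have h9 := hclose z hz
        have h10 : s * (u z - k z) ≤ |u z - k z| := by
          calc s * (u z - k z) ≤ |s * (u z - k z)| := le_abs_self _
            _ = |u z - k z| := by rw [abs_mul, habs, one_mul]
        linarith)
    exact h8 c (mem_closedBall_self hR.le)
  have hA := hin 1 (Or.inl rfl)
  have hB' := hin (-1) (Or.inr rfl)
  have hintu : CircleIntegrable u c R := ContinuousOn.circleIntegrable hR.le
    (hu.mono sphere_subset_closedBall)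
  have hintk : CircleIntegrable k c R := ContinuousOn.circleIntegrable hR.le hkc.continuousOn
  have hU' : circleAverage u c R - k c ≤ δ / 2 := by
    have : circleAverage (fun z => u z - k z) c R ≤ δ / 2 := by
      apply circleAverage_mono_on_of_le_circle
      · exact hintu.sub hintk
      · intro x hx
        rw [abs_of_pos hR] at hx
        exact (le_abs_self _).trans (hclose x hx)
    rw [circleAverage_fun_sub hintu hintk, hkmv] at this
    exact this
  have hL : k c - circleAverage u c R ≤ δ / 2 := by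
    have : circleAverage (fun z => k z - u z) c R ≤ δ / 2 := by
      apply circleAverage_mono_on_of_le_circle
      · exact hintk.sub hintu
      · intro x hx
        rw [abs_of_pos hR] at hx
        have := hclose x hx
        rw [abs_sub_comm] at this
        exact (le_abs_self _).trans this
    rw [circleAverage_fun_sub hintk hintu, hkmv] at this
    exact this
  rw [Real.dist_eq, abs_le]
  constructor <;> linarith

lemma wm_const (a z : ℂ) (s : ℝ) : wm (fun _ => a) z s = 0 := by
  have := wm_affine 0 0 a z s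
  simpa using this

/-- Uniform smallness of the defect of the potential. -/
lemma pot_uniform (F : ℂ → ℂ) (hF : Continuous F) (hc : HasCompactSupport F) (η δ : ℝ)
    (hδ' : ∀ a b : ℂ, dist a b < δ → dist (F a) (F b) < η / (2 * π)) (z : ℂ) (r : ℝ)
    (hr : 0 < r) (hrδ : r < δ) : ‖circleAverage (pot F) z r - pot F z‖ ≤ η * r := by
  rw [circleAverage_pot_eq F hF hc z r hr]
  have h1 : ∀ s ∈ Set.uIoc (0 : ℝ) r, ‖wm F z s‖ ≤ η := by
    intro s hs
    rw [uIoc_of_le hr.le] at hs
    have h2 : wm F z s = wm (fun w => F w - F z) z s := by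
      rw [wm_sub F (fun _ => F z) hF continuous_const, wm_const, sub_zero]
    rw [h2]
    have h3 := norm_wm_le (fun w => F w - F z) z s (η / (2 * π)) (by
      intro w hw
      rw [abs_of_pos hs.1, mem_sphere] at hw
      rw [← dist_eq_norm]
      exact (hδ' w z (by rw [hw]; linarith [hs.2])).le)
    have hπ := Real.pi_pos
    calc _ ≤ η / (2 * π) * (2 * π) := h3
      _ = η := by field_simp
  have h4 := intervalIntegral.norm_integral_le_of_norm_le_const h1
  rwa [sub_zero, abs_of_pos hr] at h4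

/-- The four one sided conditions for the primitive of the weighted mean. -/
def WCond (F : ℂ → ℂ) (z : ℂ) : Prop :=
  ∀ η : ℝ, 0 < η →
    (∃ᶠ r in 𝓝[>] (0 : ℝ), -(η * r ^ 2) ≤ (∫ s in (0 : ℝ)..r, wm F z s).re) ∧
    (∃ᶠ r in 𝓝[>] (0 : ℝ), (∫ s in (0 : ℝ)..r, wm F z s).re ≤ η * r ^ 2) ∧
    (∃ᶠ r in 𝓝[>] (0 : ℝ), -(η * r ^ 2) ≤ (∫ s in (0 : ℝ)..r, wm F z s).im) ∧
    (∃ᶠ r in 𝓝[>] (0 : ℝ), (∫ s in (0 : ℝ)..r, wm F z s).im ≤ η * r ^ 2)

lemma pot_mean' (F : ℂ → ℂ) (hF : Continuous F) (hc : HasCompactSupport F) (z0 : ℂ) (R0 : ℝ)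
    (T : ℕ → Set ℂ) (hT : ∀ k, μH[1] (T k) < ⊤)
    (h : ∀ z ∈ ball z0 R0, (∀ k, z ∉ T k) → WCond F z)
    (z : ℂ) (r : ℝ) (hr : 0 < r) (hzr : r + dist z z0 < R0) :
    circleAverage (pot F) z r = pot F z := by
  have hpc := continuous_pot F hF hc
  have hsub : ball z r ⊆ ball z0 R0 := ball_subset_ball' hzr.le
  have hci : ∀ z' r', CircleIntegrable (pot F) z' r' := fun z' r' =>
    hpc.continuousOn.circleIntegrable'
  have huc : UniformContinuous F := hc.uniformContinuous_of_continuous hF
  have hπ := Real.pi_pos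
  have hmod : ∀ η : ℝ, ∃ δ : ℝ, 0 < η → (0 < δ ∧
      ∀ a b : ℂ, dist a b < δ → dist (F a) (F b) < η / (2 * π)) := by
    intro η
    by_cases hη : 0 < η
    · obtain ⟨δ, hδ, hδ'⟩ := Metric.uniformContinuous_iff.mp huc (η / (2 * π)) (by positivity)
      exact ⟨δ, fun _ => ⟨hδ, fun a b hab => hδ' hab⟩⟩
    · exact ⟨0, fun h => absurd h hη⟩
  choose δf hδf using hmod
  have hreE : ∀ z' t, circleAverage (fun w => (pot F w).re) z' t = (circleAverage (pot F) z' t).re :=
    fun z' t => (Complex.reCLM).circleAverage_comp_comm (hci z' t)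
  have himE : ∀ z' t, circleAverage (fun w => (pot F w).im) z' t = (circleAverage (pot F) z' t).im :=
    fun z' t => (Complex.imCLM).circleAverage_comp_comm (hci z' t)
  have hre : circleAverage (fun w => (pot F w).re) z r = (pot F z).re := by
    apply bp' z r hr (fun w => (pot F w).re) (Complex.continuous_re.comp hpc).continuousOn T hT δf
      (fun η hη => (hδf η hη).1)
    · intro η hη z' _ t ht htδ
      rw [hreE, ← Complex.sub_re]
      exact (Complex.abs_re_le_norm _).trans
        (pot_uniform F hF hc η (δf η) (hδf η hη).2 z' t ht htδ)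
    · intro z' hz' hz'T η hη
      obtain ⟨h1, h2, -, -⟩ := h z' (hsub hz') hz'T η hη
      have hev : ∀ᶠ t : ℝ in 𝓝[>] 0, t ∈ Ioi (0 : ℝ) := self_mem_nhdsWithin
      constructor
      · refine (h1.and_eventually hev).mono ?_
        rintro t ⟨h3, h4⟩
        rw [hreE, ← Complex.sub_re, circleAverage_pot_eq F hF hc z' t h4]
        exact h3
      · refine (h2.and_eventually hev).mono ?_
        rintro t ⟨h3, h4⟩
        rw [hreE, ← Complex.sub_re, circleAverage_pot_eq F hF hc z' t h4]
        exact h3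
  have him : circleAverage (fun w => (pot F w).im) z r = (pot F z).im := by
    apply bp' z r hr (fun w => (pot F w).im) (Complex.continuous_im.comp hpc).continuousOn T hT δf
      (fun η hη => (hδf η hη).1)
    · intro η hη z' _ t ht htδ
      rw [himE, ← Complex.sub_im]
      exact (Complex.abs_im_le_norm _).trans
        (pot_uniform F hF hc η (δf η) (hδf η hη).2 z' t ht htδ)
    · intro z' hz' hz'T η hη
      obtain ⟨-, -, h1, h2⟩ := h z' (hsub hz') hz'T η hη
      have hev : ∀ᶠ t : ℝ in 𝓝[>] 0, t ∈ Ioi (0 : ℝ) := self_mem_nhdsWithin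
      constructor
      · refine (h1.and_eventually hev).mono ?_
        rintro t ⟨h3, h4⟩
        rw [himE, ← Complex.sub_im, circleAverage_pot_eq F hF hc z' t h4]
        exact h3
      · refine (h2.and_eventually hev).mono ?_
        rintro t ⟨h3, h4⟩
        rw [himE, ← Complex.sub_im, circleAverage_pot_eq F hF hc z' t h4]
        exact h3
  apply Complex.ext
  · rw [← hre, hreE]
  · rw [← him, himE]

lemma wm_eq_zero' (F : ℂ → ℂ) (hF : Continuous F) (hc : HasCompactSupport F) (z0 : ℂ) (R0 : ℝ)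
    (T : ℕ → Set ℂ) (hT : ∀ k, μH[1] (T k) < ⊤)
    (h : ∀ z ∈ ball z0 R0, (∀ k, z ∉ T k) → WCond F z)
    (z : ℂ) (r : ℝ) (hr : 0 < r) (hzr : r + dist z z0 < R0) : wm F z r = 0 := by
  have h1 : ∀ t : ℝ, 0 < t → t < R0 - dist z z0 → (∫ s in (0 : ℝ)..t, wm F z s) = 0 := by
    intro t ht htR
    rw [← circleAverage_pot_eq F hF hc z t ht, pot_mean' F hF hc z0 R0 T hT h z t ht (by linarith),
      sub_self]
  have h2 : HasDerivAt (fun t : ℝ => ∫ s in (0 : ℝ)..t, wm F z s) (wm F z r) r := by
    apply intervalIntegral.integral_hasDerivAt_right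
    · exact (continuous_wm F hF z).intervalIntegrable _ _
    · exact (continuous_wm F hF z).stronglyMeasurableAtFilter _ _
    · exact (continuous_wm F hF z).continuousAt
  have h3 : (fun t : ℝ => ∫ s in (0 : ℝ)..t, wm F z s) =ᶠ[𝓝 r] fun _ => 0 := by
    filter_upwards [Ioo_mem_nhds hr (show r < R0 - dist z z0 by linarith)] with t ht
    exact h1 t ht.1 ht.2
  have h4 : HasDerivAt (fun t : ℝ => ∫ s in (0 : ℝ)..t, wm F z s) 0 r :=
    (hasDerivAt_const r (0 : ℂ)).congr_of_eventuallyEq h3
  exact h2.unique h4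

/-- The averaged areal circular derivative: `r ^ (-2)` times the integral over `0 < s < r` of
`I_f(z, s) / s`. -/
noncomputable def mean (f : ℂ → ℂ) (z : ℂ) (r : ℝ) : ℂ :=
  (∫ s in (0 : ℝ)..r, (∮ ζ in C(z, s), f ζ) / (s : ℂ)) / (r : ℂ) ^ 2

/-- The one sided conditions. -/
def Cond (f : ℂ → ℂ) (z : ℂ) : Prop :=
  ∀ η : ℝ, 0 < η →
    (∃ᶠ r in 𝓝[>] (0 : ℝ), -η < (mean f z r).re) ∧ (∃ᶠ r in 𝓝[>] (0 : ℝ), (mean f z r).re < η) ∧
    (∃ᶠ r in 𝓝[>] (0 : ℝ), -η < (mean f z r).im) ∧ (∃ᶠ r in 𝓝[>] (0 : ℝ), (mean f z r).im < η)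

lemma mean_eq (f F : ℂ → ℂ) (z : ℂ) (ρ : ℝ) (hfF : ∀ w ∈ ball z ρ, F w = f w) (r : ℝ) (hr : 0 < r)
    (hrρ : r < ρ) : mean f z r * (r : ℂ) ^ 2 = I * ∫ s in (0 : ℝ)..r, wm F z s := by
  have hr' : (r : ℂ) ≠ 0 := by exact_mod_cast hr.ne'
  unfold mean
  rw [div_mul_cancel₀ _ (pow_ne_zero 2 hr'), ← intervalIntegral.integral_const_mul]
  apply intervalIntegral.integral_congr_ae
  apply Eventually.of_forall
  intro s hs
  rw [uIoc_of_le hr.le] at hs
  have hs0 : (s : ℂ) ≠ 0 := by exact_mod_cast hs.1.ne'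
  have h2 : (∮ ζ in C(z, s), f ζ) = ∮ ζ in C(z, s), F ζ := by
    apply circleIntegral.integral_congr hs.1.le
    intro w hw
    rw [hfF w (closedBall_subset_ball (hs.2.trans_lt hrρ) (sphere_subset_closedBall hw))]
  rw [h2, circleIntegral_eq_wm]
  field_simp

lemma wcond_of_cond (f F : ℂ → ℂ) (z : ℂ) (ρ : ℝ) (hρ : 0 < ρ) (hfF : ∀ w ∈ ball z ρ, F w = f w)
    (h : Cond f z) : WCond F z := by
  intro η hη
  obtain ⟨h1, h2, h3, h4⟩ := h η hη
  have hev : ∀ᶠ r : ℝ in 𝓝[>] 0, r ∈ Ioo 0 ρ := Ioo_mem_nhdsGT hρ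
  have hre : ∀ r ∈ Ioo 0 ρ, (∫ s in (0 : ℝ)..r, wm F z s).re = (mean f z r).im * r ^ 2 := by
    intro r hr
    have h5 := mean_eq f F z ρ hfF r hr.1 hr.2
    have h6 := congrArg Complex.im h5
    rw [← Complex.ofReal_pow, mul_comm (mean f z r), Complex.im_ofReal_mul] at h6
    simp only [Complex.mul_im, Complex.I_re, Complex.I_im, zero_mul, one_mul, zero_add] at h6
    linarith
  have him : ∀ r ∈ Ioo 0 ρ, (∫ s in (0 : ℝ)..r, wm F z s).im = -((mean f z r).re * r ^ 2) := by
    intro r hr
    have h5 := mean_eq f F z ρ hfF r hr.1 hr.2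
    have h6 := congrArg Complex.re h5
    rw [← Complex.ofReal_pow, mul_comm (mean f z r), Complex.re_ofReal_mul] at h6
    simp only [Complex.mul_re, Complex.I_re, Complex.I_im, zero_mul, one_mul, zero_sub] at h6
    linarith
  refine ⟨?_, ?_, ?_, ?_⟩
  · refine (h3.and_eventually hev).mono ?_
    rintro r ⟨h5, h6⟩
    rw [hre r h6]
    have := pow_pos h6.1 2
    nlinarith
  · refine (h4.and_eventually hev).mono ?_
    rintro r ⟨h5, h6⟩
    rw [hre r h6]
    have := pow_pos h6.1 2
    nlinarith
  · refine (h2.and_eventually hev).mono ?_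
    rintro r ⟨h5, h6⟩
    rw [him r h6]
    have := pow_pos h6.1 2
    nlinarith
  · refine (h1.and_eventually hev).mono ?_
    rintro r ⟨h5, h6⟩
    rw [him r h6]
    have := pow_pos h6.1 2
    nlinarith

/-- First main theorem. -/
theorem main1 (D : Set ℂ) (hD : IsOpen D) (f : ℂ → ℂ) (hf : ContinuousOn f D)
    (T : ℕ → Set ℂ) (hT : ∀ k, μH[1] (T k) < ⊤) (h : ∀ z ∈ D, (∀ k, z ∉ T k) → Cond f z) :
    DifferentiableOn ℂ f D := by
  intro z0 hz0
  apply DifferentiableAt.differentiableWithinAt
  obtain ⟨R, hR, hRD⟩ := Metric.isOpen_iff.mp hD z0 hz0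
  -- a continuous compactly supported function which agrees with `f` near `z0`
  let χ : ContDiffBump z0 := ⟨R / 4, R / 2, by positivity, by linarith⟩
  let F : ℂ → ℂ := fun z => (χ z : ℝ) • f z
  have hsub : tsupport (fun z => (χ z : ℝ)) ⊆ closedBall z0 (R / 2) := by
    rw [χ.tsupport_eq]
  have htsF : tsupport F ⊆ tsupport (fun z => (χ z : ℝ)) := tsupport_smul_subset_left _ _
  have hsD : tsupport F ⊆ D :=
    (htsF.trans hsub).trans ((closedBall_subset_ball (by linarith)).trans hRD)
  have hFc : Continuous F := by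
    apply ContinuousOn.continuous_of_tsupport_subset _ hD hsD
    exact (χ.continuous.continuousOn).smul hf
  have hFs : HasCompactSupport F := χ.hasCompactSupport.smul_right
  have hFf : ∀ z ∈ ball z0 (R / 4), F z = f z := by
    intro z hz
    simp only [F]
    rw [χ.one_of_mem_closedBall (ball_subset_closedBall hz), one_smul]
  have hlim : ∀ z ∈ ball z0 (R / 4), (∀ k, z ∉ T k) → WCond F z := by
    intro z hz hzT
    have hzD : z ∈ D := hRD (ball_subset_ball (by linarith) hz)
    obtain ⟨ρ, hρ, hball⟩ := Metric.isOpen_iff.mp isOpen_ball z hz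
    exact wcond_of_cond f F z ρ hρ (fun w hw => hFf w (hball hw)) (h z hzD hzT)
  have hwm := wm_eq_zero' F hFc hFs z0 (R / 4) T hT hlim
  have hdiff := differentiableOn_of_wm F hFc hFs z0 (R / 4) (by positivity)
    (fun z s hs hzs => hwm z s hs hzs)
  have hFz0 : DifferentiableAt ℂ F z0 :=
    hdiff.differentiableAt (ball_mem_nhds z0 (by positivity))
  apply hFz0.congr_of_eventuallyEq
  filter_upwards [ball_mem_nhds z0 (show 0 < R / 4 by positivity)] with z hz
  exact (hFf z hz).symm

/-- The condition `I_f(z, r) = o(r ^ 2)` implies the one sided conditions. -/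
theorem cond_of_tendsto (D : Set ℂ) (hD : IsOpen D) (f : ℂ → ℂ) (hf : ContinuousOn f D) (z : ℂ)
    (hz : z ∈ D)
    (h : Tendsto (fun r : ℝ => (∮ ζ in C(z, r), f ζ) / (r : ℂ) ^ 2) (𝓝[>] 0) (𝓝 0)) :
    Cond f z := by
  have hm : Tendsto (fun r : ℝ => mean f z r) (𝓝[>] 0) (𝓝 0) := by
    rw [Metric.tendsto_nhds] at h ⊢
    intro ε hε
    have h1 := h ε hε
    obtain ⟨ρ, hρ, hsub⟩ := mem_nhdsGT_iff_exists_Ioo_subset.mp h1
    have hρ' : (0 : ℝ) < ρ := hρ
    filter_upwards [Ioo_mem_nhdsGT hρ'] with r hr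
    have hb : ∀ s ∈ Set.Ioc (0 : ℝ) r, ‖(∮ ζ in C(z, s), f ζ) / (s : ℂ)‖ ≤ ε * s := by
      intro s hs
      have h2 := hsub (show s ∈ Ioo 0 ρ from ⟨hs.1, hs.2.trans_lt hr.2⟩)
      simp only [Set.mem_ofPred_eq, dist_zero_right, norm_div, norm_pow, Complex.norm_real,
        Real.norm_eq_abs, abs_of_pos hs.1] at h2
      rw [norm_div, Complex.norm_real, Real.norm_eq_abs, abs_of_pos hs.1, div_le_iff₀ hs.1]
      rw [div_lt_iff₀ (pow_pos hs.1 2)] at h2
      nlinarith
    have h3 : ‖∫ s in (0 : ℝ)..r, (∮ ζ in C(z, s), f ζ) / (s : ℂ)‖ ≤ ∫ s in (0 : ℝ)..r, ε * s := by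
      apply intervalIntegral.norm_integral_le_of_norm_le hr.1.le
      · exact Eventually.of_forall fun s hs => hb s hs
      · exact Continuous.intervalIntegrable (by fun_prop) _ _
    rw [intervalIntegral.integral_const_mul, integral_id] at h3
    unfold mean
    rw [dist_zero_right, norm_div, norm_pow, Complex.norm_real, Real.norm_eq_abs, sq_abs,
      div_lt_iff₀ (by have := hr.1; positivity)]
    have : 0 < r := hr.1
    nlinarith [mul_pos hε (mul_pos this this)]
  have hre : Tendsto (fun r : ℝ => (mean f z r).re) (𝓝[>] 0) (𝓝 0) := by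
    have := (Complex.continuous_re.tendsto 0).comp hm
    simp only [Complex.zero_re] at this
    exact this
  have him : Tendsto (fun r : ℝ => (mean f z r).im) (𝓝[>] 0) (𝓝 0) := by
    have := (Complex.continuous_im.tendsto 0).comp hm
    simp only [Complex.zero_im] at this
    exact this
  intro η hη
  refine ⟨?_, ?_, ?_, ?_⟩
  · exact (hre.eventually (lt_mem_nhds (by linarith))).frequently
  · exact (hre.eventually (gt_mem_nhds hη)).frequently
  · exact (him.eventually (lt_mem_nhds (by linarith))).frequently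
  · exact (him.eventually (gt_mem_nhds hη)).frequently

end Pool.Agent.Y264.CA
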