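import Mathlib
import Pool.Agent.Results.MP_be4214_an.ArealCircleDerivative

open Complex Filter Metric Real Set Topology MeasureTheory
open scoped ENNReal

namespace Pool.Agent.Y264.CA

open Pool.Agent.Results.MP_be4214_an.ArealCircleDerivative

/-- Cantor functions: for an uncountable closed set of reals there is a continuous function which
is locally constant off the set but not constant. -/
lemma cantor (C : Set ℝ) (hC : IsClosed C) (hunc : ¬ C.Countable) :
    ∃ g : ℝ → ℝ, Continuous g ∧ (∀ t, t ∉ C → ∃ δ > 0, ∀ s, |s - t| < δ → g s = g t) ∧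
      ∃ a b, g a ≠ g b := by
  haveI : PolishSpace C := hC.polishSpace
  have h1 : ¬ Countable C := fun h => hunc (Set.countable_coe_iff.mp h)
  have h2 : ¬ Countable ℝ := by
    intro h
    exact Cardinal.not_countable_real (Set.countable_univ_iff.mpr h)
  let e : ℝ ≃ᵐ C := PolishSpace.measurableEquivOfNotCountable h2 h1
  let ψ : ℝ → ℝ := fun t => (e t : ℝ)
  have hψm : Measurable ψ := measurable_subtype_coe.comp e.measurable
  have hψi : Function.Injective ψ := Subtype.val_injective.comp e.injective
  have hψC : ∀ t, ψ t ∈ C := fun t => (e t).2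
  let ν : Measure ℝ := (volume.restrict (Icc (0 : ℝ) 1)).map ψ
  haveI : IsFiniteMeasure (volume.restrict (Icc (0 : ℝ) 1)) := ⟨by simp⟩
  haveI : IsFiniteMeasure ν := by
    constructor
    rw [Measure.map_apply hψm MeasurableSet.univ]
    exact measure_lt_top _ _
  have hsing : ∀ t, ν {t} = 0 := by
    intro t
    rw [Measure.map_apply hψm (measurableSet_singleton t)]
    have : (ψ ⁻¹' {t}).Subsingleton := by
      intro a ha b hb
      exact hψi (ha.trans hb.symm)
    exact this.measure_zero _
  have hg : ∀ t, ν.real (Iic t) = ∫ s, (Iic t).indicator (fun _ => (1 : ℝ)) s ∂ν := by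
    intro t
    rw [integral_indicator measurableSet_Iic]
    simp
  refine ⟨fun t => ν.real (Iic t), ?_, ?_, ?_⟩
  · rw [continuous_iff_continuousAt]
    intro t0
    simp_rw [hg]
    apply continuousAt_of_dominated (bound := fun _ => (1 : ℝ))
    · exact Eventually.of_forall fun t =>
        (measurable_const.indicator measurableSet_Iic).aestronglyMeasurable
    · refine Eventually.of_forall fun t => Eventually.of_forall fun s => ?_
      by_cases hs : s ∈ Iic t
      · rw [Set.indicator_of_mem hs]; simp
      · rw [Set.indicator_of_notMem hs]; simp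
    · exact integrable_const _
    · have hae : ∀ᵐ s ∂ν, s ≠ t0 := by
        rw [ae_iff]
        simpa using hsing t0
      filter_upwards [hae] with s hs
      rcases lt_or_gt_of_ne hs with h | h
      · have : (fun t => (Iic t).indicator (fun _ => (1 : ℝ)) s) =ᶠ[𝓝 t0] fun _ => 1 := by
          filter_upwards [lt_mem_nhds h] with t ht
          exact Set.indicator_of_mem (show s ∈ Iic t from le_of_lt ht) _
        exact continuousAt_const.congr this.symm
      · have : (fun t => (Iic t).indicator (fun _ => (1 : ℝ)) s) =ᶠ[𝓝 t0] fun _ => 0 := by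
          filter_upwards [gt_mem_nhds h] with t ht
          exact Set.indicator_of_notMem (by
            intro hmem
            exact absurd (show s ≤ t from hmem) (not_le.mpr ht)) _
        exact continuousAt_const.congr this.symm
  · intro t ht
    obtain ⟨δ, hδ, hball⟩ := Metric.isOpen_iff.mp hC.isOpen_compl t ht
    refine ⟨δ, hδ, fun s hs => ?_⟩
    have hpre : ψ ⁻¹' Iic s = ψ ⁻¹' Iic t := by
      ext x
      simp only [mem_preimage, mem_Iic]
      have hx : ¬ |ψ x - t| < δ := by
        intro hlt
        exact hball (show ψ x ∈ ball t δ by rw [mem_ball, Real.dist_eq]; exact hlt) (hψC x)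
      have hx' := not_lt.mp hx
      constructor
      · intro h
        by_contra hcon
        push Not at hcon
        rw [abs_of_pos (by linarith)] at hx'
        have := le_abs_self (s - t)
        linarith
      · intro h
        by_contra hcon
        push Not at hcon
        rw [abs_of_nonpos (by linarith)] at hx'
        have := neg_abs_le (s - t)
        linarith
    have h3 : ν (Iic s) = ν (Iic t) := by
      rw [Measure.map_apply hψm measurableSet_Iic, Measure.map_apply hψm measurableSet_Iic, hpre]
    simp only [Measure.real, h3]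
  · by_contra hno
    push Not at hno
    have hconst : ∀ t, ν (Iic t) = ν (Iic 0) := by
      intro t
      have := hno t 0
      simp only [Measure.real] at this
      exact (ENNReal.toReal_eq_toReal_iff' (measure_ne_top _ _) (measure_ne_top _ _)).mp this
    have h5 : Tendsto (fun t : ℝ => ν (Iic t)) atTop (𝓝 (ν univ)) := tendsto_measure_Iic_atTop ν
    simp_rw [hconst] at h5
    have h7 : ν (Iic 0) = ν univ := tendsto_nhds_unique tendsto_const_nhds h5
    have h9 : ν univ = 1 := by
      rw [Measure.map_apply hψm MeasurableSet.univ]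
      simp
    have h10 : ∀ t, ν (Ioi t) = 0 := by
      intro t
      have h11 := measure_compl (measurableSet_Iic (a := t)) (measure_ne_top ν _)
      rw [compl_Iic, hconst t, h7, tsub_self] at h11
      exact h11
    have h12 : ∀ t, ν (Ici t) = 0 := by
      intro t
      apply measure_mono_null _ (h10 (t - 1))
      intro s hs
      have : t ≤ s := hs
      show t - 1 < s
      linarith
    have h6 : Tendsto (fun t : ℝ => ν (Ici t)) atBot (𝓝 (ν univ)) := tendsto_measure_Ici_atBot ν
    simp_rw [h12] at h6
    have h8 : 0 = ν univ := tendsto_nhds_unique tendsto_const_nhds h6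
    rw [h9] at h8
    exact zero_ne_one h8

/-- Sharpness. -/
theorem sharp (C : Set ℝ) (hC : IsClosed C) (hunc : ¬ C.Countable) :
    ∃ f : ℂ → ℂ, Continuous f ∧ (∀ z : ℂ, z.re ∉ C → ∃ r0 > 0, ∀ r, 0 < r → r ≤ r0 →
      (∮ ζ in C(z, r), f ζ) = 0) ∧ ¬ Differentiable ℂ f := by
  obtain ⟨g, hgc, hgl, a, b, hab⟩ := cantor C hC hunc
  refine ⟨fun z => ((g z.re : ℝ) : ℂ), ?_, ?_, ?_⟩
  · exact Complex.continuous_ofReal.comp (hgc.comp Complex.continuous_re)
  · intro z hz
    obtain ⟨δ, hδ, hδ'⟩ := hgl z.re hz
    refine ⟨δ / 2, by positivity, fun r hr hrδ => ?_⟩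
    have h1 : (∮ ζ in C(z, r), ((g ζ.re : ℝ) : ℂ)) = ∮ ζ in C(z, r), ((g z.re : ℝ) : ℂ) := by
      apply circleIntegral.integral_congr hr.le
      intro w hw
      rw [mem_sphere, dist_eq_norm] at hw
      have h2 : |w.re - z.re| < δ := by
        have := Complex.abs_re_le_norm (w - z)
        rw [Complex.sub_re] at this
        linarith
      simp only [hδ' w.re h2]
    rw [h1, circleIntegral_eq_wm]
    have := wm_affine 0 0 ((g z.re : ℝ) : ℂ) z r
    simp only [zero_mul, add_zero, mul_zero] at this
    rw [this, mul_zero]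
  · intro hd
    have hderiv : ∀ z, deriv (fun z : ℂ => ((g z.re : ℝ) : ℂ)) z = 0 := by
      intro z
      have h1 := (hd z).hasDerivAt
      have h2 : HasDerivAt (fun t : ℝ => z + t * I) I 0 := by
        have h3 : HasDerivAt (fun t : ℝ => (t : ℂ)) 1 (0 : ℝ) := Complex.ofRealCLM.hasDerivAt
        have := (h3.mul_const I).const_add z
        simpa using this
      have h1' : HasDerivAt (fun z : ℂ => ((g z.re : ℝ) : ℂ))
          (deriv (fun z : ℂ => ((g z.re : ℝ) : ℂ)) z) (z + ((0 : ℝ) : ℂ) * I) := by
        simpa using h1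
      have h4 := h1'.comp (0 : ℝ) h2
      have h5 : ((fun z : ℂ => ((g z.re : ℝ) : ℂ)) ∘ fun t : ℝ => z + t * I) =
          fun _ : ℝ => ((g z.re : ℝ) : ℂ) := by
        funext t
        simp
      rw [h5] at h4
      have h6 := h4.unique (hasDerivAt_const (0 : ℝ) (((g z.re : ℝ) : ℂ)))
      exact (mul_eq_zero.mp h6).resolve_right Complex.I_ne_zero
    have hconst := is_const_of_deriv_eq_zero hd hderiv (a : ℂ) (b : ℂ)
    simp only [Complex.ofReal_re] at hconst
    exact hab (Complex.ofReal_injective hconst)

/-- Countably many vertical lines have sigma-finite length. -/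
lemma lines (C : Set ℝ) (hC : C.Countable) :
    ∃ T : ℕ → Set ℂ, (∀ k, μH[1] (T k) < ⊤) ∧ ∀ z : ℂ, (∀ k, z ∉ T k) → z.re ∉ C := by
  rcases C.eq_empty_or_nonempty with rfl | hne
  · exact ⟨fun _ => ∅, fun k => by simp, fun z _ => by simp⟩
  obtain ⟨c, hc⟩ := hC.exists_eq_range hne
  refine ⟨fun k => (fun t : ℝ => ((c k.unpair.1 : ℝ) : ℂ) + t * I) ''
    Icc (-(k.unpair.2 : ℝ)) (k.unpair.2 : ℝ), fun k => ?_, fun z hz hzC => ?_⟩
  · have hlip : LipschitzWith 1 (fun t : ℝ => ((c k.unpair.1 : ℝ) : ℂ) + t * I) := by
      apply LipschitzWith.of_dist_le_mul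
      intro s t
      rw [dist_eq_norm, dist_eq_norm, NNReal.coe_one, one_mul]
      have : ((c k.unpair.1 : ℝ) : ℂ) + s * I - (((c k.unpair.1 : ℝ) : ℂ) + t * I) =
          ((s - t : ℝ) : ℂ) * I := by push_cast; ring
      rw [this, norm_mul, Complex.norm_I, mul_one, Complex.norm_real]
    have h1 := (hlip.lipschitzOnWith (s := Icc (-(k.unpair.2 : ℝ)) (k.unpair.2 : ℝ))
      ).hausdorffMeasure_image_le (d := 1) zero_le_one
    refine h1.trans_lt ?_
    rw [hausdorffMeasure_real]
    simp
  · rw [hc] at hzC
    obtain ⟨i, hi⟩ := hzC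
    obtain ⟨n, hn⟩ := exists_nat_ge |z.im|
    apply hz (Nat.pair i n)
    simp only [Nat.unpair_pair]
    refine ⟨z.im, ?_, ?_⟩
    · exact abs_le.mp hn
    · simp only [hi]
      exact Complex.re_add_im z

end Pool.Agent.Y264.CA
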